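import Pool.Agent.Helper95.FZ.Diff

/-!
# Frozen noise (MP_9ee088_an): the main theorem
-/

set_option autoImplicit false
open MeasureTheory Real Set Filter Topology

namespace Pool.Agent.Helper95.FZ

open Pool.Agent.Helper18.FD
open Pool.Agent.Helper18.UC (T2 rep toT nn clm)

variable {χ : ℝ → ℝ} {s : ℝ}

theorem good_of (hχ : Bump χ) (hs : 0 < s) (hs1 : s < 1) {c a κ η : ℝ} (ha : 100 ≤ |a|) {G : ℝ × ℝ → ℝ}
    (hG : Small s η G) {ω : Om} (hω : Cube ω) (hok : (rgen χ s κ (gen G) ω).Ok (1 / |a|))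
    (hB : Big2 c a (Fl a (rgen χ s κ (gen G) ω)) (TT a (rgen χ s κ (gen G) ω))) :
    Good c a (fun q => G q + κ * noise χ s ω q) := by
  have hη : 1 / |a| ≤ 1 / 2 := one_div_le_one_div_of_le (by norm_num) (by linarith)
  obtain ⟨φ, hφe⟩ : ∃ φ, φ = rgen χ s κ (gen G) ω := ⟨_, rfl⟩
  have hf := fun y x => fderiv_sum hχ hs hs1 hG κ hω y x
  rw [← hφe] at hok hB
  simp only [← hφe] at hf
  refine ⟨Fl a φ, ?_, ?_, Fl_contDiff hη hok, Fl_inv hη hok, TT a φ, ?_, TT_bij hη hok, ?_, hB⟩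
  · intro q
    have h1 := nx_spec (a := a) hη hok q
    constructor
    · change nx a φ q = _ + fderiv ℝ _ (q.1, nx a φ q) (1, 0)
      rw [(hf q.1 (nx a φ q)).1]
      linarith
    · change q.1 - φ.f2 q.1 (nx a φ q) = q.1 - fderiv ℝ _ (q.1, nx a φ q) (0, 1)
      rw [(hf q.1 (nx a φ q)).2]
  · intro F' hF'
    funext q
    obtain ⟨h1, h2⟩ := hF' q
    rw [(hf q.1 (F' q).1).1] at h1
    rw [(hf q.1 (F' q).1).2] at h2
    have h3 : nx a φ q = (F' q).1 := nx_unique hη hok (by linarith)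
    refine Prod.ext h3.symm ?_
    rw [h2, ← h3]
    rfl
  · exact fun q => toT_TT hη hok q
  · exact S_mp (a := a) hη hok

theorem main (s : ℝ) (hs : 0 < s) (hs1 : s < 1) (χ : ℝ → ℝ) (hχ : ContDiff ℝ 3 χ)
    (hχ1 : ∀ t, |t| ≤ 1 / 2 → χ t = 1) (hχ0 : ∀ t, 1 ≤ |t| → χ t = 0) :
    ∃ c A C : ℝ, 0 < c ∧
      (∀ᵐ ω ∂law, Small s C (noise χ s ω)) ∧
      (∀ (a κ : ℝ) (G : ℝ × ℝ → ℝ), A ≤ |a| → Real.exp (-|a| ^ c) ≤ κ → κ ≤ |a| ^ (-2 : ℝ) →
        Small s (|a| ^ (-2 : ℝ)) G →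
        law {ω | ¬ Good c a (fun q => G q + κ * noise χ s ω q)} ≤ ENNReal.ofReal (|a| ^ (-c))) ∧
      (∀ (κ : ℝ → ℝ) (G : ℝ → ℝ × ℝ → ℝ), Measurable κ →
        (Measurable fun r : ℝ × (ℝ × ℝ) => G r.1 r.2) →
        (∀ a, A ≤ |a| → Real.exp (-|a| ^ c) ≤ κ a ∧ κ a ≤ |a| ^ (-2 : ℝ) ∧
          Small s (|a| ^ (-2 : ℝ)) (G a)) →
        ∀ᵐ ω ∂law, ∃ Λ : Set ℝ, MeasurableSet Λ ∧
          (∃ R₀ : ℝ, ∀ R : ℝ, R₀ ≤ R → volume (Icc (-R) R \ Λ) ≤ ENNReal.ofReal (R ^ (1 - c))) ∧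
          ∀ a ∈ Λ, Good c a (fun q => G a q + κ a * noise χ s ω q)) := by
  have hB : Bump χ := ⟨hχ, hχ1, hχ0⟩
  obtain ⟨c, A, hc, hA, h0, -, h1, h2⟩ := final hs hs1 hB
  obtain ⟨C, -, hC⟩ := hh_small hB hs hs1
  refine ⟨c, A, C, hc, ?_, ?_, ?_⟩
  · rw [law_eq]
    filter_upwards [ae_cube] with ω hω
    rw [noise_eq hω]
    exact hC ω
  · intro a κ G ha hκ hκ' hG
    have ha100 : 100 ≤ |a| := hA.trans ha
    have hκ0 : 0 ≤ κ := (Real.exp_pos _).le.trans hκ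
    have hg := gen_ok hG
    rw [law_eq]
    refine le_trans (measure_mono_ae ?_) (h1 a κ (gen G) ha hg (gen_hoel ha100 hG) hκ hκ')
    filter_upwards [ae_cube] with ω hω hn hb
    exact hn (good_of hB hs hs1 ha100 hG hω (h0 a κ (gen G) ha hg hκ0 hκ' ω) hb)
  · intro κ G mκ mG h
    classical
    obtain ⟨G', hG'⟩ : ∃ G' : ℝ → ℝ × ℝ → ℝ, G' = fun a => if A ≤ |a| then G a else fun _ => 0 := ⟨_, rfl⟩
    have e1 : ∀ a, A ≤ |a| → G' a = G a := fun a ha => by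
      rw [hG']
      exact if_pos ha
    have e2 : ∀ a, ¬ A ≤ |a| → G' a = fun _ => 0 := fun a ha => by
      rw [hG']
      exact if_neg ha
    have hset : MeasurableSet {a : ℝ | A ≤ |a|} := measurableSet_le measurable_const measurable_id.abs
    have hsm : ∀ a, ContDiff ℝ 2 (G' a) := by
      intro a
      by_cases ha : A ≤ |a|
      · rw [e1 a ha]
        exact (h a ha).2.2.smooth
      · rw [e2 a ha]
        exact contDiff_const
    have hm : Measurable fun r : ℝ × (ℝ × ℝ) => G' r.1 r.2 := by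
      have h3 : (fun r : ℝ × (ℝ × ℝ) => G' r.1 r.2) = fun r : ℝ × (ℝ × ℝ) =>
          if A ≤ |r.1| then G r.1 r.2 else 0 := by
        funext r
        by_cases hr : A ≤ |r.1|
        · rw [e1 _ hr, if_pos hr]
        · rw [e2 _ hr, if_neg hr]
      rw [h3]
      exact Measurable.ite (measurable_fst hset) mG measurable_const
    obtain ⟨m1, m2, m3, m4, m5⟩ := gen_meas hsm hm
    have h3 := h2 κ (fun a => gen (G' a)) mκ m1 m2 m3 m4 m5 (fun a ha => by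
      obtain ⟨k1, k2, k3⟩ := h a ha
      rw [e1 a ha]
      exact ⟨gen_ok k3, gen_hoel (hA.trans ha) k3, k1, k2⟩)
    rw [law_eq]
    filter_upwards [h3, ae_cube] with ω hω hc
    obtain ⟨Λ, hΛ1, hΛ2, hΛ3⟩ := hω
    refine ⟨Λ, hΛ1, hΛ2, fun a ha => ?_⟩
    obtain ⟨haA, hb⟩ := hΛ3 a ha
    obtain ⟨k1, k2, k3⟩ := h a haA
    rw [e1 a haA] at hb
    exact good_of hB hs hs1 (hA.trans haA) k3 hc
      (h0 a (κ a) (gen (G a)) haA (gen_ok k3) ((Real.exp_pos _).le.trans k1) k2 ω) hb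

end Pool.Agent.Helper95.FZ
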