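import Pool.Agent.Helper95.FZ.Defs
import Pool.Agent.Helper18.FD.Final

/-!
# Frozen noise (MP_9ee088_an): generating functions as functions, and as families of derivatives
-/

set_option autoImplicit false
open MeasureTheory Real Set Filter Topology

namespace Pool.Agent.Helper95.FZ

open Pool.Agent.Helper18.FD
open Pool.Agent.Helper18.UC (T2 rep toT nn clm)

/-! ### the background -/

/-- the partial derivatives -/
noncomputable def gen (G : ℝ × ℝ → ℝ) : Gen where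
  f1 y x := fderiv ℝ G (y, x) (1, 0)
  f2 y x := fderiv ℝ G (y, x) (0, 1)
  f11 y x := fderiv ℝ (fderiv ℝ G) (y, x) (1, 0) (1, 0)
  f12 y x := fderiv ℝ (fderiv ℝ G) (y, x) (0, 1) (1, 0)
  f22 y x := fderiv ℝ (fderiv ℝ G) (y, x) (0, 1) (0, 1)

theorem nrm10 : ‖((1 : ℝ), (0 : ℝ))‖ = 1 := by simp [Prod.norm_def]

theorem nrm01 : ‖((0 : ℝ), (1 : ℝ))‖ = 1 := by simp [Prod.norm_def]

variable {s η : ℝ} {G : ℝ × ℝ → ℝ}

/-- derivative of the derivative along a curve -/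
theorem pd (hG : ContDiff ℝ 2 G) {γ : ℝ → ℝ × ℝ} {v : ℝ × ℝ} {t : ℝ} (hγ : HasDerivAt γ v t) (w : ℝ × ℝ) :
    HasDerivAt (fun r => fderiv ℝ G (γ r) w) (fderiv ℝ (fderiv ℝ G) (γ t) v w) t := by
  have h1 : ContDiff ℝ 1 (fderiv ℝ G) := hG.fderiv_right (by norm_num)
  have h2 : HasFDerivAt (fderiv ℝ G) (fderiv ℝ (fderiv ℝ G) (γ t)) (γ t) :=
    (h1.differentiable (by norm_num)).differentiableAt.hasFDerivAt
  have h3 : HasDerivAt (fun r => fderiv ℝ G (γ r)) (fderiv ℝ (fderiv ℝ G) (γ t) v) t :=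
    h2.comp_hasDerivAt t hγ
  have h4 := h3.clm_apply (hasDerivAt_const t w)
  simpa using h4

theorem cur1 (x t : ℝ) : HasDerivAt (fun r : ℝ => (r, x)) ((1 : ℝ), (0 : ℝ)) t :=
  (hasDerivAt_id t).prodMk (hasDerivAt_const t x)

theorem cur2 (y t : ℝ) : HasDerivAt (fun r : ℝ => (y, r)) ((0 : ℝ), (1 : ℝ)) t :=
  (hasDerivAt_const t y).prodMk (hasDerivAt_id t)

theorem fderiv_per (h : Small s η G) (y x : ℝ) (k l : ℤ) :
    fderiv ℝ G (y + k, x + l) = fderiv ℝ G (y, x) := by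
  have h1 : (fun q : ℝ × ℝ => G (q + ((k : ℝ), (l : ℝ)))) = G := by
    funext q
    exact h.per q.1 q.2 k l
  have h2 := fderiv_comp_add_right (𝕜 := ℝ) (f := G) (x := (y, x)) ((k : ℝ), (l : ℝ))
  rw [h1] at h2
  exact h2.symm

theorem fderiv2_per (h : Small s η G) (y x : ℝ) (k l : ℤ) :
    fderiv ℝ (fderiv ℝ G) (y + k, x + l) = fderiv ℝ (fderiv ℝ G) (y, x) := by
  have h1 : (fun q : ℝ × ℝ => fderiv ℝ G (q + ((k : ℝ), (l : ℝ)))) = fderiv ℝ G := by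
    funext q
    exact fderiv_per h q.1 q.2 k l
  have h2 := fderiv_comp_add_right (𝕜 := ℝ) (f := fderiv ℝ G) (x := (y, x)) ((k : ℝ), (l : ℝ))
  rw [h1] at h2
  exact h2.symm

theorem bd1 {η : ℝ} (f : (ℝ × ℝ) →L[ℝ] ℝ) {v : ℝ × ℝ} (hv : ‖v‖ = 1) (hf : ‖f‖ ≤ η) : |f v| ≤ η := by
  have h := f.le_opNorm v
  rw [hv, mul_one] at h
  exact h.trans hf

theorem bd2 {η : ℝ} (f : (ℝ × ℝ) →L[ℝ] (ℝ × ℝ) →L[ℝ] ℝ) {v w : ℝ × ℝ} (hv : ‖v‖ = 1) (hw : ‖w‖ = 1)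
    (hf : ‖f‖ ≤ η) : |f v w| ≤ η := by
  have h := f.le_opNorm v
  rw [hv, mul_one] at h
  exact bd1 (f v) hw (h.trans hf)

theorem gen_ok (h : Small s η G) : (gen G).Ok η := by
  have c1 : Continuous (fderiv ℝ G) := h.smooth.continuous_fderiv (by norm_num)
  have c2' : ContDiff ℝ 1 (fderiv ℝ G) := h.smooth.fderiv_right (by norm_num)
  have c2 : Continuous (fderiv ℝ (fderiv ℝ G)) := c2'.continuous_fderiv (by norm_num)
  have p1 : ∀ y x, fderiv ℝ G (y + 1, x) = fderiv ℝ G (y, x) := fun y x => by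
    have := fderiv_per h y x 1 0
    simpa using this
  have p2 : ∀ y x, fderiv ℝ G (y, x + 1) = fderiv ℝ G (y, x) := fun y x => by
    have := fderiv_per h y x 0 1
    simpa using this
  have q1 : ∀ y x, fderiv ℝ (fderiv ℝ G) (y + 1, x) = fderiv ℝ (fderiv ℝ G) (y, x) := fun y x => by
    have := fderiv2_per h y x 1 0
    simpa using this
  have q2 : ∀ y x, fderiv ℝ (fderiv ℝ G) (y, x + 1) = fderiv ℝ (fderiv ℝ G) (y, x) := fun y x => by
    have := fderiv2_per h y x 0 1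
    simpa using this
  have n1 : ∀ v : ℝ × ℝ, ‖v‖ = 1 → Nice η fun y x => fderiv ℝ G (y, x) v := fun v hv =>
    ⟨c1.clm_apply continuous_const, fun y x => by rw [p1], fun y x => by rw [p2],
      fun y x => bd1 _ hv (h.d1 _)⟩
  have n2 : ∀ v w : ℝ × ℝ, ‖v‖ = 1 → ‖w‖ = 1 → Nice η fun y x => fderiv ℝ (fderiv ℝ G) (y, x) v w :=
    fun v w hv hw => ⟨(c2.clm_apply continuous_const).clm_apply continuous_const,
      fun y x => by rw [q1], fun y x => by rw [q2], fun y x => bd2 _ hv hw (h.d2 _)⟩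
  have sy : ∀ y x : ℝ, fderiv ℝ (fderiv ℝ G) (y, x) (1, 0) (0, 1) =
      fderiv ℝ (fderiv ℝ G) (y, x) (0, 1) (1, 0) := by
    intro y x
    have h1 : IsSymmSndFDerivAt ℝ G (y, x) :=
      (h.smooth.contDiffAt (x := (y, x))).isSymmSndFDerivAt (by simp)
    exact h1.eq (1, 0) (0, 1)
  refine ⟨n1 _ nrm10, n1 _ nrm01, n2 _ _ nrm10 nrm10, n2 _ _ nrm01 nrm10, n2 _ _ nrm01 nrm01, ?_, ?_, ?_, ?_⟩
  · exact fun y x => pd h.smooth (cur1 x y) (1, 0)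
  · exact fun y x => pd h.smooth (cur2 y x) (1, 0)
  · intro y x
    have h1 := pd h.smooth (cur1 x y) (0, 1)
    rw [sy] at h1
    exact h1
  · exact fun y x => pd h.smooth (cur2 y x) (0, 1)

theorem gen_hoel {a : ℝ} (ha : 100 ≤ |a|) (h : Small s (|a| ^ (-2 : ℝ)) G) : Hoel2 a s (gen G) := by
  intro q q'
  have h0 : 0 < |a| := by linarith
  have hr : |a| ^ (-2 : ℝ) ≤ 1 / (2 * |a|) := by
    rw [Real.rpow_neg (abs_nonneg a), Real.rpow_two, sq, ← one_div]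
    exact one_div_le_one_div_of_le (by positivity) (by nlinarith)
  have hd : 0 ≤ dist q q' ^ s := Real.rpow_nonneg dist_nonneg _
  have h1 : ‖fderiv ℝ (fderiv ℝ G) q - fderiv ℝ (fderiv ℝ G) q'‖ ≤ dist q q' ^ s / (2 * |a|) := by
    refine (h.hold q q').trans ?_
    have := mul_le_mul_of_nonneg_right hr hd
    calc |a| ^ (-2 : ℝ) * dist q q' ^ s ≤ 1 / (2 * |a|) * dist q q' ^ s := this
      _ = dist q q' ^ s / (2 * |a|) := by ring
  have key : ∀ v w : ℝ × ℝ, ‖v‖ = 1 → ‖w‖ = 1 →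
      |fderiv ℝ (fderiv ℝ G) q v w - fderiv ℝ (fderiv ℝ G) q' v w| ≤ dist q q' ^ s / (2 * |a|) := by
    intro v w hv hw
    have e : fderiv ℝ (fderiv ℝ G) q v w - fderiv ℝ (fderiv ℝ G) q' v w =
        (fderiv ℝ (fderiv ℝ G) q - fderiv ℝ (fderiv ℝ G) q') v w := rfl
    rw [e]
    exact bd2 _ hv hw h1
  exact ⟨key _ _ nrm10 nrm10, key _ _ nrm01 nrm10, key _ _ nrm01 nrm01⟩

/-! ### measurability -/

theorem meas_pd {H H' : ℝ × ℝ × ℝ → ℝ} (hH : Measurable H) (e : ℝ × ℝ)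
    (h : ∀ a y x : ℝ, HasDerivAt (fun t => H (a, y + t * e.1, x + t * e.2)) (H' (a, y, x)) 0) :
    Measurable H' := by
  refine measurable_of_tendsto_metrizable (f := fun n : ℕ => fun r : ℝ × ℝ × ℝ =>
    ((1 / ((n : ℝ) + 1))⁻¹ • (H (r.1, r.2.1 + 1 / ((n : ℝ) + 1) * e.1, r.2.2 + 1 / ((n : ℝ) + 1) * e.2) -
      H r))) (fun n => ?_) ?_
  · have h1 : Measurable fun r : ℝ × ℝ × ℝ =>
        (r.1, r.2.1 + 1 / ((n : ℝ) + 1) * e.1, r.2.2 + 1 / ((n : ℝ) + 1) * e.2) := by fun_prop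
    have h2 : Measurable fun r : ℝ × ℝ × ℝ =>
        H (r.1, r.2.1 + 1 / ((n : ℝ) + 1) * e.1, r.2.2 + 1 / ((n : ℝ) + 1) * e.2) - H r := (hH.comp h1).sub hH
    exact h2.const_mul ((1 / ((n : ℝ) + 1))⁻¹)
  · rw [tendsto_pi_nhds]
    intro r
    have h1 := (hasDerivAt_iff_tendsto_slope_zero.1 (h r.1 r.2.1 r.2.2))
    have h2 : Tendsto (fun n : ℕ => 1 / ((n : ℝ) + 1)) atTop (𝓝[≠] 0) := by
      refine tendsto_nhdsWithin_iff.2 ⟨tendsto_one_div_add_atTop_nhds_zero_nat, ?_⟩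
      exact Eventually.of_forall fun n => by
        have : (0 : ℝ) < 1 / ((n : ℝ) + 1) := by positivity
        exact this.ne'
    have h3 := h1.comp h2
    refine (h3.congr fun n => ?_)
    simp only [Function.comp_apply, zero_add, zero_mul, add_zero, Prod.mk.eta]

section Fam

variable {G : ℝ → ℝ × ℝ → ℝ}

theorem gen_meas (hG : ∀ a, ContDiff ℝ 2 (G a)) (hm : Measurable fun r : ℝ × (ℝ × ℝ) => G r.1 r.2) :
    (Measurable fun r : ℝ × ℝ × ℝ => (gen (G r.1)).f1 r.2.1 r.2.2) ∧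
    (Measurable fun r : ℝ × ℝ × ℝ => (gen (G r.1)).f2 r.2.1 r.2.2) ∧
    (Measurable fun r : ℝ × ℝ × ℝ => (gen (G r.1)).f11 r.2.1 r.2.2) ∧
    (Measurable fun r : ℝ × ℝ × ℝ => (gen (G r.1)).f12 r.2.1 r.2.2) ∧
    Measurable fun r : ℝ × ℝ × ℝ => (gen (G r.1)).f22 r.2.1 r.2.2 := by
  have l1 : ∀ y x : ℝ, HasDerivAt (fun t : ℝ => (y + t * (1 : ℝ), x + t * (0 : ℝ))) ((1 : ℝ), (0 : ℝ)) 0 := by
    intro y x
    have h1 := ((hasDerivAt_id (0 : ℝ)).mul_const (1 : ℝ)).const_add y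
    have h2 := ((hasDerivAt_id (0 : ℝ)).mul_const (0 : ℝ)).const_add x
    simpa using h1.prodMk h2
  have l2 : ∀ y x : ℝ, HasDerivAt (fun t : ℝ => (y + t * (0 : ℝ), x + t * (1 : ℝ))) ((0 : ℝ), (1 : ℝ)) 0 := by
    intro y x
    have h1 := ((hasDerivAt_id (0 : ℝ)).mul_const (0 : ℝ)).const_add y
    have h2 := ((hasDerivAt_id (0 : ℝ)).mul_const (1 : ℝ)).const_add x
    simpa using h1.prodMk h2
  have z1 : ∀ y x : ℝ, ((y + (0:ℝ) * (1 : ℝ), x + (0:ℝ) * (0 : ℝ)) : ℝ × ℝ) = (y, x) := fun y x => by simp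
  have z2 : ∀ y x : ℝ, ((y + (0:ℝ) * (0 : ℝ), x + (0:ℝ) * (1 : ℝ)) : ℝ × ℝ) = (y, x) := fun y x => by simp
  have d1 : ∀ (a : ℝ) (q : ℝ × ℝ), HasFDerivAt (G a) (fderiv ℝ (G a) q) q := fun a q =>
    ((hG a).differentiable (by norm_num)).differentiableAt.hasFDerivAt
  have m1 : Measurable fun r : ℝ × ℝ × ℝ => (gen (G r.1)).f1 r.2.1 r.2.2 := by
    refine meas_pd hm (1, 0) fun a y x => ?_
    have h2 := HasFDerivAt.comp_hasDerivAt (𝕜 := ℝ) (0 : ℝ) (by rw [z1]; exact d1 a (y, x)) (l1 y x)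
    exact h2
  have m2 : Measurable fun r : ℝ × ℝ × ℝ => (gen (G r.1)).f2 r.2.1 r.2.2 := by
    refine meas_pd hm (0, 1) fun a y x => ?_
    have h2 := HasFDerivAt.comp_hasDerivAt (𝕜 := ℝ) (0 : ℝ) (by rw [z2]; exact d1 a (y, x)) (l2 y x)
    exact h2
  refine ⟨m1, m2, ?_, ?_, ?_⟩
  · refine meas_pd m1 (1, 0) fun a y x => ?_
    have h2 := pd (hG a) (l1 y x) (1, 0)
    rw [z1] at h2
    exact h2
  · refine meas_pd m1 (0, 1) fun a y x => ?_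
    have h2 := pd (hG a) (l2 y x) (1, 0)
    rw [z2] at h2
    exact h2
  · refine meas_pd m2 (0, 1) fun a y x => ?_
    have h2 := pd (hG a) (l2 y x) (0, 1)
    rw [z2] at h2
    exact h2

end Fam

end Pool.Agent.Helper95.FZ
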