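import Mathlib

/-!
# Frozen noise (MP_9ee088_an): definitions for the final statement
-/

set_option autoImplicit false
open MeasureTheory Real Set Filter Topology
open scoped ENNReal

namespace Pool.Agent.Helper95.FZ

/-- Law of the coefficients: independent, uniform on `[-1, 1]`, indexed by scale, cell (two integers) and kind. -/
noncomputable def law : Measure (ℕ × ℕ × ℕ × Bool → ℝ) :=
  Measure.infinitePi fun _ => (2 : ℝ≥0∞)⁻¹ • volume.restrict (Icc (-1) 1)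

/-- `N (t - i / N)`, the difference taken modulo one in `[-1/2, 1/2]`. -/
noncomputable def loc (N i : ℕ) (t : ℝ) : ℝ := N * ((t - i / N) - round (t - i / N))

/-- The random function `h_ω` on the torus: the sum over all scales `N = 2 ^ (l + 3)` and all cells
`(i, j)`, `0 ≤ i, j < N`, of `N ^ (-2 - s) χ(u) χ(v) (ω₀ v + ω₁ v ^ 2 / 2)`, `u = N (y - i / N)`, `v = N (x - j / N)`. -/
noncomputable def noise (χ : ℝ → ℝ) (s : ℝ) (ω : ℕ × ℕ × ℕ × Bool → ℝ) (q : ℝ × ℝ) : ℝ :=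
  ∑' l : ℕ, ((2 ^ (l + 3) : ℕ) : ℝ) ^ (-(2 + s)) *
    ∑ c ∈ Finset.range (2 ^ (l + 3)) ×ˢ Finset.range (2 ^ (l + 3)),
      χ (loc (2 ^ (l + 3)) c.1 q.1) * χ (loc (2 ^ (l + 3)) c.2 q.2) *
        (ω (l, c.1, c.2, false) * loc (2 ^ (l + 3)) c.2 q.2 +
          ω (l, c.1, c.2, true) * (loc (2 ^ (l + 3)) c.2 q.2 ^ 2 / 2))

/-- `φ` is `ℤ²`-periodic of class `C^(2+s)`: the first and second derivatives and the `s`-Hölder constant of
the second derivative are at most `η`. -/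
structure Small (s η : ℝ) (φ : ℝ × ℝ → ℝ) : Prop where
  smooth : ContDiff ℝ 2 φ
  per : ∀ (y x : ℝ) (k l : ℤ), φ (y + k, x + l) = φ (y, x)
  d1 : ∀ q, ‖fderiv ℝ φ q‖ ≤ η
  d2 : ∀ q, ‖fderiv ℝ (fderiv ℝ φ) q‖ ≤ η
  hold : ∀ q q', ‖fderiv ℝ (fderiv ℝ φ) q - fderiv ℝ (fderiv ℝ φ) q'‖ ≤ η * dist q q' ^ s

/-- `F` is the map `(x, p) ↦ (X, P)` with `X = 2x - p + a sin 2πx + ∂₁φ(x, X)`, `P = x - ∂₂φ(x, X)`. -/
def Generates (a : ℝ) (φ : ℝ × ℝ → ℝ) (F : ℝ × ℝ → ℝ × ℝ) : Prop := ∀ q : ℝ × ℝ,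
  (F q).1 = 2 * q.1 - q.2 + a * Real.sin (2 * π * q.1) + fderiv ℝ φ (q.1, (F q).1) (1, 0) ∧
  (F q).2 = q.1 - fderiv ℝ φ (q.1, (F q).1) (0, 1)

/-- `φ` generates exactly one map `F` of the plane; `F` is a `C¹` diffeomorphism, it induces an area preserving
bijection `T` of the torus; `T` has an invariant set `Ω` of measure at least `1 - |a| ^ (-c)` on which it is
ergodic and weakly mixing, with Lyapunov exponent `L` almost everywhere on `Ω`, `|L - log (π |a|)| ≤ |a| ^ (-c)`. -/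
def Good (c a : ℝ) (φ : ℝ × ℝ → ℝ) : Prop :=
  ∃ F : ℝ × ℝ → ℝ × ℝ, Generates a φ F ∧ (∀ F', Generates a φ F' → F' = F) ∧
    ContDiff ℝ 1 F ∧ (∃ F' : ℝ × ℝ → ℝ × ℝ, ContDiff ℝ 1 F' ∧ (∀ q, F' (F q) = q) ∧ ∀ q, F (F' q) = q) ∧
    ∃ T : UnitAddCircle × UnitAddCircle → UnitAddCircle × UnitAddCircle,
      (∀ q : ℝ × ℝ, T ((q.1 : UnitAddCircle), (q.2 : UnitAddCircle)) =
        (((F q).1 : UnitAddCircle), ((F q).2 : UnitAddCircle))) ∧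
      Function.Bijective T ∧ MeasurePreserving T volume volume ∧
      ∃ (Ω : Set (UnitAddCircle × UnitAddCircle)) (L : ℝ), MeasurableSet Ω ∧
        T ⁻¹' Ω =ᵐ[volume] Ω ∧ 1 - |a| ^ (-c) ≤ volume.real Ω ∧
        (∀ (ξ : ℂ) (h : UnitAddCircle × UnitAddCircle → ℂ), Measurable h →
          (∀ᵐ z, z ∈ Ω → h (T z) = ξ * h z) → ∃ w : ℂ, ∀ᵐ z, z ∈ Ω → h z = w) ∧
        |L - Real.log (π * |a|)| ≤ |a| ^ (-c) ∧
        ∀ᵐ q : ℝ × ℝ, ((q.1 : UnitAddCircle), (q.2 : UnitAddCircle)) ∈ Ω →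
          Tendsto (fun n : ℕ => Real.log ‖fderiv ℝ (F^[n]) q‖ / n) atTop (𝓝 L)

end Pool.Agent.Helper95.FZ
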