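import Pool.Agent.Helper95.FZ.Noise

/-!
# Frozen noise (MP_9ee088_an): the maps are diffeomorphisms
-/

set_option autoImplicit false
open MeasureTheory Real Set Filter Topology

namespace Pool.Agent.Helper95.FZ

open Pool.Agent.Helper18.FD
open Pool.Agent.Helper18.UC (T2 rep toT nn clm clm_apply)

variable {a η : ℝ} {φ : Gen}

theorem toT_TT (hη : η ≤ 1 / 2) (hφ : φ.Ok η) (q : ℝ × ℝ) :
    TT a φ (toT q) = toT (Fl a φ q) := by
  obtain ⟨u, w, h⟩ := Pool.Agent.Helper18.UC.rep_toT q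
  unfold TT
  rw [h]
  have h1 := Fl_sh (a := a) hη hφ q u w
  have h2 : Pool.Agent.Helper18.UC.sh q u w = (q.1 + u, q.2 + w) := rfl
  rw [h2, h1]
  exact Pool.Agent.Helper18.UC.toT_sh (Fl a φ q) (2 * u - w) u

/-- a matrix of determinant one as a continuous linear equivalence -/
noncomputable def ce (B : Matrix (Fin 2) (Fin 2) ℝ) (h : B.det = 1) : (ℝ × ℝ) ≃L[ℝ] (ℝ × ℝ) :=
  ContinuousLinearEquiv.equivOfInverse (clm B) (clm !![B 1 1, -B 0 1; -B 1 0, B 0 0])
    (by
      intro v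
      rw [Matrix.det_fin_two] at h
      rw [clm_apply, clm_apply]
      refine Prod.ext ?_ ?_
      · simp
        linear_combination v.1 * h
      · simp
        linear_combination v.2 * h)
    (by
      intro v
      rw [Matrix.det_fin_two] at h
      rw [clm_apply, clm_apply]
      refine Prod.ext ?_ ?_
      · simp
        linear_combination v.1 * h
      · simp
        linear_combination v.2 * h)

theorem coe_ce (B : Matrix (Fin 2) (Fin 2) ℝ) (h : B.det = 1) : (ce B h : (ℝ × ℝ) →L[ℝ] (ℝ × ℝ)) = clm B := rfl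

/-- the inverse is of class `C¹` -/
theorem Fl_inv (hη : η ≤ 1 / 2) (hφ : φ.Ok η) :
    ∃ F' : ℝ × ℝ → ℝ × ℝ, ContDiff ℝ 1 F' ∧ (∀ q, F' (Fl a φ q) = q) ∧ ∀ q, Fl a φ (F' q) = q := by
  have hC := Fl_contDiff (a := a) hη hφ
  have hb := Fl_bij (a := a) hη hφ
  have hd : ∀ q, HasFDerivAt (Fl a φ) (ce (DF a φ q) (DF_det hη hφ q) : (ℝ × ℝ) →L[ℝ] (ℝ × ℝ)) q :=
    fun q => Fl_hasFDerivAt hη hφ q
  have ho : IsOpenMap (Fl a φ) := by
    rw [isOpenMap_iff_nhds_le]
    intro q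
    have h1 := (hC.contDiffAt (x := q)).hasStrictFDerivAt' (hd q) (by norm_num)
    exact h1.map_nhds_eq_of_equiv.ge
  let e : (ℝ × ℝ) ≃ₜ (ℝ × ℝ) := (Equiv.ofBijective (Fl a φ) hb).toHomeomorphOfContinuousOpen hC.continuous ho
  have he : (e : ℝ × ℝ → ℝ × ℝ) = Fl a φ := rfl
  refine ⟨e.symm, e.contDiff_symm (f₀' := fun q => ce (DF a φ q) (DF_det hη hφ q)) hd hC, fun q => ?_, fun q => ?_⟩
  · rw [← he]
    exact e.symm_apply_apply q
  · rw [← he]
    exact e.apply_symm_apply q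

theorem TT_bij (hη : η ≤ 1 / 2) (hφ : φ.Ok η) : Function.Bijective (TT a φ) := by
  have hb := Fl_bij (a := a) hη hφ
  constructor
  · intro z z' h
    unfold TT at h
    rw [Pool.Agent.Helper18.UC.toT_eq_iff] at h
    obtain ⟨u, w, h1⟩ := h
    have h2 := Fl_sh (a := a) hη hφ (rep z') w (2 * w - u)
    have h3 : Fl a φ ((rep z').1 + w, (rep z').2 + (2 * w - u : ℤ)) = Fl a φ (rep z) := by
      rw [h2, h1]
      unfold Pool.Agent.Helper18.UC.sh
      refine Prod.ext ?_ rfl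
      push_cast
      simp
    have h4 := hb.1 h3
    have h5 : toT (rep z) = toT (rep z') := by
      rw [← h4]
      exact Pool.Agent.Helper18.UC.toT_sh (rep z') w (2 * w - u)
    rwa [Pool.Agent.Helper18.UC.toT_rep, Pool.Agent.Helper18.UC.toT_rep] at h5
  · intro z
    obtain ⟨q, hq⟩ := hb.2 (rep z)
    refine ⟨toT q, ?_⟩
    rw [toT_TT hη hφ, hq, Pool.Agent.Helper18.UC.toT_rep]

end Pool.Agent.Helper95.FZ
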