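import Pool.Agent.Helper95.FZ.Conv

/-!
# Frozen noise (MP_9ee088_an): the random function
-/

set_option autoImplicit false
open MeasureTheory Real Set Filter Topology

namespace Pool.Agent.Helper95.FZ

open Pool.Agent.Helper18.FD
open Pool.Agent.Helper18.UC (T2 rep toT nn clm)

theorem law_eq : law = PP := rfl

/-- the noise coefficients are in `[-1, 1]` -/
def Cube (ω : Om) : Prop := ∀ i, ω i ∈ Icc (-1 : ℝ) 1

theorem ae_cube : ∀ᵐ ω ∂PP, Cube ω := by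
  unfold Cube
  rw [ae_all_iff]
  intro i
  have h1 : MeasurePreserving (Function.eval i) PP uu := by
    unfold PP
    exact measurePreserving_eval_infinitePi (fun _ : Ix => uu) i
  have h2 : ∀ᵐ t ∂uu, t ∈ Icc (-1 : ℝ) 1 := by
    rw [ae_iff, uu, Measure.smul_apply, smul_eq_mul, mul_eq_zero]
    right
    have h3 : MeasurableSet {t : ℝ | ¬ t ∈ Icc (-1 : ℝ) 1} := measurableSet_Icc.compl
    rw [Measure.restrict_apply h3]
    have h4 : {t : ℝ | ¬ t ∈ Icc (-1 : ℝ) 1} ∩ Icc (-1) 1 = ∅ := by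
      ext t
      simp only [mem_inter_iff, mem_ofPred_eq, mem_empty_iff_false, iff_false, not_and]
      exact fun h => h
    rw [h4, measure_empty]
  exact h1.quasiMeasurePreserving.ae h2

theorem noise_eq {χ : ℝ → ℝ} {s : ℝ} {ω : Om} (hω : Cube ω) :
    noise χ s ω = fun q => hh χ s ω q.1 q.2 := by
  funext q
  unfold noise hh fld lvl
  refine tsum_congr fun l => ?_
  congr 1
  refine Finset.sum_congr rfl fun c _ => ?_
  rw [cl_of_mem (hω _), cl_of_mem (hω _)]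
  unfold pr k1 k2 loc rr NN
  ring

section Total

/-- total derivative from continuous partial derivatives -/
theorem tot95 {f f1 f2 : ℝ → ℝ → ℝ} (c1 : Continuous fun q : ℝ × ℝ => f1 q.1 q.2)
    (c2 : Continuous fun q : ℝ × ℝ => f2 q.1 q.2)
    (d1 : ∀ y x, HasDerivAt (fun t => f t x) (f1 y x) y)
    (d2 : ∀ y x, HasDerivAt (fun t => f y t) (f2 y x) x) (u : ℝ × ℝ) :
    HasFDerivAt (fun q : ℝ × ℝ => f q.1 q.2)
      (f1 u.1 u.2 • ContinuousLinearMap.fst ℝ ℝ ℝ + f2 u.1 u.2 • ContinuousLinearMap.snd ℝ ℝ ℝ) u := by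
  have e1 : ∀ y x, HasFDerivAt (fun t => f t x) (f1 y x • (1 : ℝ →L[ℝ] ℝ)) y := fun y x =>
    (d1 y x).hasFDerivAt.congr_fderiv (by ext; simp)
  have e2 : ∀ y x, HasFDerivAt (fun t => f y t) (f2 y x • (1 : ℝ →L[ℝ] ℝ)) x := fun y x =>
    (d2 y x).hasFDerivAt.congr_fderiv (by ext; simp)
  have h := (hasStrictFDerivAt_uncurry_coprod (𝕜 := ℝ) (u := u) (f := f)
    (f₁ := fun y x => f1 y x • (1 : ℝ →L[ℝ] ℝ)) (f₂ := fun y x => f2 y x • (1 : ℝ →L[ℝ] ℝ))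
    (Filter.Eventually.of_forall fun v => e1 v.1 v.2)
    (Filter.Eventually.of_forall fun v => e2 v.1 v.2)
    (c1.smul continuous_const).continuousAt (c2.smul continuous_const).continuousAt).hasFDerivAt
  refine h.congr_fderiv ?_
  refine ContinuousLinearMap.ext fun v => ?_
  simp [Function.HasUncurry.uncurry]

/-- the linear form with the coordinates `u`, `v` -/
noncomputable def lf (u v : ℝ) : (ℝ × ℝ) →L[ℝ] ℝ :=
  u • ContinuousLinearMap.fst ℝ ℝ ℝ + v • ContinuousLinearMap.snd ℝ ℝ ℝ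

theorem lf_apply (u v : ℝ) (w : ℝ × ℝ) : lf u v w = u * w.1 + v * w.2 := by
  simp [lf]

theorem norm_lf (u v : ℝ) : ‖lf u v‖ ≤ |u| + |v| := by
  refine ContinuousLinearMap.opNorm_le_bound _ (by positivity) fun w => ?_
  rw [lf_apply, Real.norm_eq_abs]
  have h1 : |w.1| ≤ ‖w‖ := norm_fst_le w
  have h2 : |w.2| ≤ ‖w‖ := norm_snd_le w
  calc |u * w.1 + v * w.2| ≤ |u * w.1| + |v * w.2| := abs_add_le _ _
    _ = |u| * |w.1| + |v| * |w.2| := by rw [abs_mul, abs_mul]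
    _ ≤ |u| * ‖w‖ + |v| * ‖w‖ := add_le_add (mul_le_mul_of_nonneg_left h1 (abs_nonneg _))
        (mul_le_mul_of_nonneg_left h2 (abs_nonneg _))
    _ = (|u| + |v|) * ‖w‖ := by ring

theorem lf_sub (u v u' v' : ℝ) : lf u v - lf u' v' = lf (u - u') (v - v') := by
  refine ContinuousLinearMap.ext fun w => ?_
  rw [_root_.sub_apply, lf_apply, lf_apply, lf_apply]
  ring

/-- the bilinear form with the matrix `u v; v w` -/
noncomputable def bf (u v w : ℝ) : (ℝ × ℝ) →L[ℝ] (ℝ × ℝ) →L[ℝ] ℝ :=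
  (lf u v).smulRight (ContinuousLinearMap.fst ℝ ℝ ℝ) + (lf v w).smulRight (ContinuousLinearMap.snd ℝ ℝ ℝ)

theorem bf_apply (u v w : ℝ) (z z' : ℝ × ℝ) :
    bf u v w z z' = lf u v z * z'.1 + lf v w z * z'.2 := by
  simp [bf]

theorem bf_sub (u v w u' v' w' : ℝ) : bf u v w - bf u' v' w' = bf (u - u') (v - v') (w - w') := by
  refine ContinuousLinearMap.ext fun z => ContinuousLinearMap.ext fun z' => ?_
  rw [_root_.sub_apply, _root_.sub_apply, bf_apply, bf_apply, bf_apply, ← lf_sub, ← lf_sub,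
    _root_.sub_apply, _root_.sub_apply]
  ring

theorem norm_bf {u v w K : ℝ} (hu : |u| ≤ K) (hv : |v| ≤ K) (hw : |w| ≤ K) : ‖bf u v w‖ ≤ 4 * K := by
  have hK : 0 ≤ K := (abs_nonneg _).trans hu
  refine ContinuousLinearMap.opNorm_le_bound _ (by positivity) fun z => ?_
  refine ContinuousLinearMap.opNorm_le_bound _ (by positivity) fun z' => ?_
  rw [bf_apply, Real.norm_eq_abs]
  have h1 : |lf u v z| ≤ 2 * K * ‖z‖ := by
    have := (lf u v).le_opNorm z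
    have h2 := norm_lf u v
    have h3 : ‖lf u v‖ * ‖z‖ ≤ (2 * K) * ‖z‖ := mul_le_mul_of_nonneg_right (by linarith) (norm_nonneg _)
    exact this.trans h3
  have h2 : |lf v w z| ≤ 2 * K * ‖z‖ := by
    have := (lf v w).le_opNorm z
    have h2 := norm_lf v w
    have h3 : ‖lf v w‖ * ‖z‖ ≤ (2 * K) * ‖z‖ := mul_le_mul_of_nonneg_right (by linarith) (norm_nonneg _)
    exact this.trans h3
  have h3 : |z'.1| ≤ ‖z'‖ := norm_fst_le z'
  have h4 : |z'.2| ≤ ‖z'‖ := norm_snd_le z'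
  have h0 : 0 ≤ 2 * K * ‖z‖ := by positivity
  calc |lf u v z * z'.1 + lf v w z * z'.2| ≤ |lf u v z * z'.1| + |lf v w z * z'.2| := abs_add_le _ _
    _ = |lf u v z| * |z'.1| + |lf v w z| * |z'.2| := by rw [abs_mul, abs_mul]
    _ ≤ (2 * K * ‖z‖) * ‖z'‖ + (2 * K * ‖z‖) * ‖z'‖ :=
        add_le_add (mul_le_mul h1 h3 (abs_nonneg _) h0) (mul_le_mul h2 h4 (abs_nonneg _) h0)
    _ = 4 * K * ‖z‖ * ‖z'‖ := by ring

variable {φ : Gen} {η K s : ℝ} {Φ : ℝ → ℝ → ℝ}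

theorem fd1 (hφ : φ.Ok η) (d1 : ∀ y x, HasDerivAt (fun t => Φ t x) (φ.f1 y x) y)
    (d2 : ∀ y x, HasDerivAt (fun t => Φ y t) (φ.f2 y x) x) (q : ℝ × ℝ) :
    HasFDerivAt (fun q : ℝ × ℝ => Φ q.1 q.2) (lf (φ.f1 q.1 q.2) (φ.f2 q.1 q.2)) q :=
  tot95 hφ.n1.cont hφ.n2.cont d1 d2 q

theorem fd2 (hφ : φ.Ok η) (q : ℝ × ℝ) :
    HasFDerivAt (fun q : ℝ × ℝ => lf (φ.f1 q.1 q.2) (φ.f2 q.1 q.2))
      (bf (φ.f11 q.1 q.2) (φ.f12 q.1 q.2) (φ.f22 q.1 q.2)) q := by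
  have h1 : HasFDerivAt (fun q : ℝ × ℝ => φ.f1 q.1 q.2) (lf (φ.f11 q.1 q.2) (φ.f12 q.1 q.2)) q :=
    tot95 hφ.n11.cont hφ.n12.cont hφ.d11 hφ.d12 q
  have h2 : HasFDerivAt (fun q : ℝ × ℝ => φ.f2 q.1 q.2) (lf (φ.f12 q.1 q.2) (φ.f22 q.1 q.2)) q :=
    tot95 hφ.n12.cont hφ.n22.cont hφ.d21 hφ.d22 q
  have h3 := (h1.smul_const (ContinuousLinearMap.fst ℝ ℝ ℝ)).add (h2.smul_const (ContinuousLinearMap.snd ℝ ℝ ℝ))
  exact h3

set_option maxSynthPendingDepth 3 in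
theorem small_of (hφ : φ.Ok η) (d1 : ∀ y x, HasDerivAt (fun t => Φ t x) (φ.f1 y x) y)
    (d2 : ∀ y x, HasDerivAt (fun t => Φ y t) (φ.f2 y x) x)
    (per : ∀ (y x : ℝ) (k l : ℤ), Φ (y + k) (x + l) = Φ y x) (hη : η ≤ K)
    (hH : ∀ q q' : ℝ × ℝ, |φ.f11 q.1 q.2 - φ.f11 q'.1 q'.2| ≤ K * dist q q' ^ s ∧
      |φ.f12 q.1 q.2 - φ.f12 q'.1 q'.2| ≤ K * dist q q' ^ s ∧
      |φ.f22 q.1 q.2 - φ.f22 q'.1 q'.2| ≤ K * dist q q' ^ s) :
    Small s (4 * K) (fun q => Φ q.1 q.2) := by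
  have hη0 : 0 ≤ η := (abs_nonneg _).trans (hφ.n1.bd 0 0)
  have e1 : fderiv ℝ (fun q : ℝ × ℝ => Φ q.1 q.2) = fun q => lf (φ.f1 q.1 q.2) (φ.f2 q.1 q.2) :=
    funext fun q => (fd1 hφ d1 d2 q).fderiv
  have e2 : fderiv ℝ (fderiv ℝ (fun q : ℝ × ℝ => Φ q.1 q.2)) =
      fun q => bf (φ.f11 q.1 q.2) (φ.f12 q.1 q.2) (φ.f22 q.1 q.2) := by
    rw [e1]
    exact funext fun q => (fd2 hφ q).fderiv
  refine ⟨?_, per, fun q => ?_, fun q => ?_, fun q q' => ?_⟩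
  · have h1 : ContDiff ℝ 1 (fderiv ℝ (fun q : ℝ × ℝ => Φ q.1 q.2)) := by
      rw [contDiff_one_iff_fderiv]
      refine ⟨?_, ?_⟩
      · rw [e1]
        exact fun q => (fd2 hφ q).differentiableAt
      · rw [e2]
        have c11 := hφ.n11.cont
        have c12 := hφ.n12.cont
        have c22 := hφ.n22.cont
        have l1 : Continuous fun q : ℝ × ℝ => lf (φ.f11 q.1 q.2) (φ.f12 q.1 q.2) :=
          (c11.smul continuous_const).add (c12.smul continuous_const)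
        have l2 : Continuous fun q : ℝ × ℝ => lf (φ.f12 q.1 q.2) (φ.f22 q.1 q.2) :=
          (c12.smul continuous_const).add (c22.smul continuous_const)
        have m1 : Continuous fun q : ℝ × ℝ => (lf (φ.f11 q.1 q.2) (φ.f12 q.1 q.2)).smulRight
            (ContinuousLinearMap.fst ℝ ℝ ℝ) :=
          ((ContinuousLinearMap.smulRightL ℝ (ℝ × ℝ) ((ℝ × ℝ) →L[ℝ] ℝ)).flip
            (ContinuousLinearMap.fst ℝ ℝ ℝ)).continuous.comp l1
        have m2 : Continuous fun q : ℝ × ℝ => (lf (φ.f12 q.1 q.2) (φ.f22 q.1 q.2)).smulRight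
            (ContinuousLinearMap.snd ℝ ℝ ℝ) :=
          ((ContinuousLinearMap.smulRightL ℝ (ℝ × ℝ) ((ℝ × ℝ) →L[ℝ] ℝ)).flip
            (ContinuousLinearMap.snd ℝ ℝ ℝ)).continuous.comp l2
        exact m1.add m2
    have h2 : ContDiff ℝ ((1 : WithTop ℕ∞) + 1) (fun q : ℝ × ℝ => Φ q.1 q.2) := by
      rw [contDiff_succ_iff_fderiv]
      exact ⟨fun q => (fd1 hφ d1 d2 q).differentiableAt, by simp, h1⟩
    have h3 : ((1 : WithTop ℕ∞) + 1) = 2 := by norm_num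
    rwa [h3] at h2
  · rw [e1]
    have h1 := hφ.n1.bd q.1 q.2
    have h2 := hφ.n2.bd q.1 q.2
    exact (norm_lf _ _).trans (by linarith)
  · rw [e2]
    exact norm_bf ((hφ.n11.bd _ _).trans hη) ((hφ.n12.bd _ _).trans hη) ((hφ.n22.bd _ _).trans hη)
  · rw [e2]
    change ‖bf _ _ _ - bf _ _ _‖ ≤ _
    rw [bf_sub]
    obtain ⟨h1, h2, h3⟩ := hH q q'
    have := norm_bf h1 h2 h3
    calc ‖bf _ _ _‖ ≤ 4 * (K * dist q q' ^ s) := this
      _ = 4 * K * dist q q' ^ s := by ring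

end Total

/-- the trivial generating function -/
noncomputable def g00 : Gen := ⟨fun _ _ => 0, fun _ _ => 0, fun _ _ => 0, fun _ _ => 0, fun _ _ => 0⟩

theorem g00_ok : g00.Ok 0 := by
  have h : Nice 0 fun _ _ => (0 : ℝ) := ⟨continuous_const, fun _ _ => rfl, fun _ _ => rfl, fun _ _ => by simp⟩
  exact ⟨h, h, h, h, h, fun _ _ => hasDerivAt_const _ _, fun _ _ => hasDerivAt_const _ _,
    fun _ _ => hasDerivAt_const _ _, fun _ _ => hasDerivAt_const _ _⟩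

section Noise

variable {χ : ℝ → ℝ} {s : ℝ}

theorem hh_d1 (hχ : Bump χ) (hs : 0 < s) (ω : Om) (y x : ℝ) :
    HasDerivAt (fun t => hh χ s ω t x) (fld (deriv χ) (k1 χ) (k2 χ) (1 + s) ω y x) y := by
  obtain ⟨a1, b1, c1, a2, b2, c2, a3, b3, c3⟩ := bump_cb hχ
  obtain ⟨A1, B1, D1, A2, B2, D2, A3, B3, D3⟩ := bump_cd hχ
  have h1 := fld_dy a1 A1 b1 c1 (show (1 : ℝ) < 2 + s by linarith) ω y x
  rw [show 2 + s - 1 = 1 + s by ring] at h1
  exact h1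

theorem hh_d2 (hχ : Bump χ) (hs : 0 < s) (ω : Om) (y x : ℝ) :
    HasDerivAt (fun t => hh χ s ω y t) (fld χ (deriv (k1 χ)) (deriv (k2 χ)) (1 + s) ω y x) x := by
  obtain ⟨a1, b1, c1, a2, b2, c2, a3, b3, c3⟩ := bump_cb hχ
  obtain ⟨A1, B1, D1, A2, B2, D2, A3, B3, D3⟩ := bump_cd hχ
  have h1 := fld_dx a1 b1 c1 B1 D1 (show (1 : ℝ) < 2 + s by linarith) ω y x
  rw [show 2 + s - 1 = 1 + s by ring] at h1
  exact h1

theorem hh_per (hχ : Bump χ) (hs : 0 < s) (ω : Om) (y x : ℝ) (k l : ℤ) :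
    hh χ s ω (y + k) (x + l) = hh χ s ω y x := by
  obtain ⟨a1, b1, c1, -⟩ := bump_cb hχ
  obtain ⟨C, -, h⟩ := fld_nice a1 b1 c1 (show (0 : ℝ) < 2 + s by linarith)
  exact nice_int (h ω) y x k l

/-- `h_ω` is of class `C^(2+s)`, with uniform bounds -/
theorem hh_small (hχ : Bump χ) (hs : 0 < s) (hs1 : s < 1) :
    ∃ C : ℝ, 0 < C ∧ ∀ ω : Om, Small s C (fun q => hh χ s ω q.1 q.2) := by
  obtain ⟨C0, hC0, h0⟩ := rgen_ok hχ hs hs1
  obtain ⟨C1, hC1, h1⟩ := rgen_hoelder hχ hs hs1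
  refine ⟨4 * max C0 C1, by positivity, fun ω => ?_⟩
  have hok : (rgen χ s 1 g00 ω).Ok (0 + 1 * C0) := h0 1 0 g00 (by norm_num) g00_ok ω
  refine small_of (φ := rgen χ s 1 g00 ω) hok ?_ ?_ (hh_per hχ hs ω) ?_ ?_
  · intro y x
    have h2 := hh_d1 hχ hs ω y x
    refine h2.congr_deriv ?_
    change _ = 0 + 1 * _
    ring
  · intro y x
    have h2 := hh_d2 hχ hs ω y x
    refine h2.congr_deriv ?_
    change _ = 0 + 1 * _
    ring
  · rw [zero_add, one_mul]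
    exact le_max_left _ _
  · intro q q'
    obtain ⟨e1, e2, e3⟩ := h1 1 g00 (by norm_num) ω q q'
    have hd : 0 ≤ dist q q' ^ s := Real.rpow_nonneg dist_nonneg _
    have hC : 1 * C1 * dist q q' ^ s ≤ max C0 C1 * dist q q' ^ s := by
      rw [one_mul]
      exact mul_le_mul_of_nonneg_right (le_max_right _ _) hd
    have key : ∀ u v : ℝ, |u - 0 - (v - 0)| ≤ 1 * C1 * dist q q' ^ s → |u - v| ≤ max C0 C1 * dist q q' ^ s := by
      intro u v h
      rw [sub_zero, sub_zero] at h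
      exact h.trans hC
    exact ⟨key _ _ e1, key _ _ e2, key _ _ e3⟩

/-- the derivative of the sum of background and noise -/
theorem fderiv_sum (hχ : Bump χ) (hs : 0 < s) (hs1 : s < 1) {η : ℝ} {G : ℝ × ℝ → ℝ} (hG : Small s η G)
    (κ : ℝ) {ω : Om} (hω : Cube ω) (y x : ℝ) :
    fderiv ℝ (fun q => G q + κ * noise χ s ω q) (y, x) (1, 0) = (rgen χ s κ (gen G) ω).f1 y x ∧
    fderiv ℝ (fun q => G q + κ * noise χ s ω q) (y, x) (0, 1) = (rgen χ s κ (gen G) ω).f2 y x := by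
  obtain ⟨C0, hC0, h0⟩ := rgen_ok hχ hs hs1
  have hok : (rgen χ s 1 g00 ω).Ok (0 + 1 * C0) := h0 1 0 g00 (by norm_num) g00_ok ω
  have h1 : HasFDerivAt (fun q : ℝ × ℝ => hh χ s ω q.1 q.2)
      (lf (fld (deriv χ) (k1 χ) (k2 χ) (1 + s) ω y x) (fld χ (deriv (k1 χ)) (deriv (k2 χ)) (1 + s) ω y x))
      (y, x) := by
    have h2 := fd1 (φ := rgen χ s 1 g00 ω) (Φ := hh χ s ω) hok (fun y x => by
      refine (hh_d1 hχ hs ω y x).congr_deriv ?_
      change _ = 0 + 1 * _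
      ring) (fun y x => by
      refine (hh_d2 hχ hs ω y x).congr_deriv ?_
      change _ = 0 + 1 * _
      ring) (y, x)
    refine h2.congr_fderiv ?_
    have e1 : (rgen χ s 1 g00 ω).f1 y x = fld (deriv χ) (k1 χ) (k2 χ) (1 + s) ω y x := by
      change 0 + 1 * _ = _
      ring
    have e2 : (rgen χ s 1 g00 ω).f2 y x = fld χ (deriv (k1 χ)) (deriv (k2 χ)) (1 + s) ω y x := by
      change 0 + 1 * _ = _
      ring
    change lf ((rgen χ s 1 g00 ω).f1 y x) ((rgen χ s 1 g00 ω).f2 y x) = _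
    rw [e1, e2]
  have h2 : HasFDerivAt G (fderiv ℝ G (y, x)) (y, x) :=
    (hG.smooth.differentiable (by norm_num)).differentiableAt.hasFDerivAt
  have h3 : HasFDerivAt (fun q => G q + κ * noise χ s ω q) (fderiv ℝ G (y, x) +
      κ • lf (fld (deriv χ) (k1 χ) (k2 χ) (1 + s) ω y x) (fld χ (deriv (k1 χ)) (deriv (k2 χ)) (1 + s) ω y x))
      (y, x) := by
    rw [noise_eq hω]
    exact h2.add (h1.const_mul κ)
  rw [h3.fderiv]
  constructor
  · rw [_root_.add_apply, _root_.smul_apply, lf_apply]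
    change _ = fderiv ℝ G (y, x) (1, 0) + κ * _
    simp
  · rw [_root_.add_apply, _root_.smul_apply, lf_apply]
    change _ = fderiv ℝ G (y, x) (0, 1) + κ * _
    simp

end Noise

end Pool.Agent.Helper95.FZ
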